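import Mathlib
import Pool.Prelude.Def_F_c31e40fa
import Pool.Agent.H285R3.MB.Land

/-!
# Parameter rays of Multibrot sets: the critical orbit shadows the orbit of the angle

Let `ψ` be the exterior conformal map of the Multibrot set `M_d`, and let `p (k + 1) c` be the
`k`-th iterate of the critical value `c` of `z ^ d + c`. For `4 ^ (k + 3) ≤ d` the number
`log (p (k + 1) (ψ w)) - d ^ k log w` is a holomorphic function of `w` with real part at most
`κ = (k + 3) log d / (d - 1)` in absolute value: if `|p (k + 1) c| ^ (d - 1) ≤ d ^ (-(k + 3))` then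
the critical orbit returns to a small disc around zero and does not escape; at the parameters of the
Multibrot set one has `|p (k + 1) c| ^ (d - 1) ≤ 2`; then the maximum principle applies. The imaginary
part is controlled on all scales by the Poisson formula for its exponential. By the area theorem
almost every parameter ray lands.
-/

set_option autoImplicit false

open Filter Topology MeasureTheory Set N62a1eb23

namespace Pool.Agent.Results.MP_fcb70f_an.CriticalOrbitShadowing

open Pool.Agent.H713R2

/-- Let `4 ^ (k + 3) ≤ d`, let `κ = (k + 3) log d / (d - 1)`, and let `ψ` be the exterior conformal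
map of the Multibrot set of degree `d`. For all `w` outside of the closed unit disc, the `k`-th
iterate of the critical value of `z ^ d + ψ w` has absolute value between
`exp (-κ) * |w| ^ (d ^ k)` and `2 ^ (1 / (d - 1)) * |w| ^ (d ^ k)`. For every arc of length `ℓ` of the
unit circle there is a rotation number `s` (which is zero for the whole circle) such that, for every
`t`, the following holds for all angles `θ` of the arc outside of a set of length at most
`24 π ℓ exp (-t)`: the parameter ray of angle `θ` lands at a point `c` of the Multibrot set, and the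
`k`-th iterate of the critical value of `z ^ d + c` is at distance at most `(6 t + 2) κ` from
`exp (i s) * exp (i θ) ^ (d ^ k)`. -/
theorem result (d k : ℕ) (hd : 4 ^ (k + 3) ≤ d) :
    (∃ ψ : ℂ → ℂ, IsExteriorMap (multibrotSet d) ψ) ∧
    ∀ ψ : ℂ → ℂ, IsExteriorMap (multibrotSet d) ψ →
      (∀ w : ℂ, 1 < ‖w‖ →
        Real.exp (-((k + 3) * Real.log d / (d - 1))) * ‖w‖ ^ (d ^ k) ≤
          ‖(fun z : ℂ => z ^ d + ψ w)^[k + 1] 0‖ ∧
        ‖(fun z : ℂ => z ^ d + ψ w)^[k + 1] 0‖ ≤ (2 : ℝ) ^ ((1 : ℝ) / (d - 1)) * ‖w‖ ^ (d ^ k)) ∧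
      ∀ α ℓ : ℝ, 0 < ℓ → ℓ ≤ 2 * Real.pi → ∃ s : ℝ, (ℓ = 2 * Real.pi → s = 0) ∧ ∀ t : ℝ,
        volume {θ : ℝ | θ ∈ Icc (α - ℓ / 2) (α + ℓ / 2) ∧
          ¬ ∃ c ∈ multibrotSet d,
            Tendsto (fun r : ℝ => ψ (r * Complex.exp (θ * Complex.I))) (𝓝[>] 1) (𝓝 c) ∧
            ‖(fun z : ℂ => z ^ d + c)^[k + 1] 0 -
                Complex.exp (s * Complex.I) * Complex.exp (θ * Complex.I) ^ (d ^ k)‖ ≤
              (6 * t + 2) * ((k + 3) * Real.log d / (d - 1))} ≤
        ENNReal.ofReal (24 * Real.pi * ℓ * Real.exp (-t)) := by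
  have hd2 : 2 ≤ d := by
    have := Pool.Agent.H285R3.MB.d_ge hd
    omega
  obtain ⟨β, hβ⟩ := exists_beta hd2
  refine ⟨⟨_, exteriorMap_of_beta hβ⟩, ?_⟩
  intro ψ hψ
  refine ⟨fun w hw => Pool.Agent.H285R3.MB.modulusK hd hψ hw, ?_⟩
  intro α ℓ h0 h1
  exact Pool.Agent.H285R3.MB.landing_final hd hψ α h0 h1

end Pool.Agent.Results.MP_fcb70f_an.CriticalOrbitShadowing
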